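import Mathlib

/-!
# Bull-free graphs: basic facts about prime induced subgraphs, centres and anticentres

Step 3 of the proof of `MP_e9b9cb_co` (first half): definitions, facts (alpha), (beta), (i), (ii).
-/

namespace H13.BF

open Set

variable {V : Type*}

/-- `G` has no induced bull: `x y t` is a triangle, `u` a pendant at `x`, `v` a pendant at `y`.
The five vertices are automatically distinct. -/
def NoBull (G : SimpleGraph V) : Prop :=
  ∀ ⦃x y t u v : V⦄, G.Adj x y → G.Adj x t → G.Adj y t → G.Adj u x → ¬ G.Adj u y →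
    ¬ G.Adj u t → G.Adj v y → ¬ G.Adj v x → ¬ G.Adj v t → G.Adj u v

/-- `S` is a homogeneous set (module) of the induced subgraph on `H`. -/
def IsMod (G : SimpleGraph V) (H S : Set V) : Prop :=
  ∀ v ∈ H, v ∉ S → (∀ s ∈ S, G.Adj v s) ∨ (∀ s ∈ S, ¬ G.Adj v s)

/-- The induced subgraph on `H` is prime: its only module with two or more vertices is `H`. -/
def PrimeOn (G : SimpleGraph V) (H : Set V) : Prop :=
  ∀ S : Set V, S ⊆ H → S.Nontrivial → IsMod G H S → S = H

/-- `z` is a centre of `H`. -/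
def Cen (G : SimpleGraph V) (H : Set V) (z : V) : Prop := z ∉ H ∧ ∀ h ∈ H, G.Adj z h

/-- `a` is an anticentre of `H`. -/
def Anti (G : SimpleGraph V) (H : Set V) (a : V) : Prop := a ∉ H ∧ ∀ h ∈ H, ¬ G.Adj a h

/-- `x` is mixed on `H`. -/
def Mix (G : SimpleGraph V) (H : Set V) (x : V) : Prop :=
  x ∉ H ∧ (∃ h ∈ H, G.Adj x h) ∧ (∃ h ∈ H, ¬ G.Adj x h)

/-- cut form of connectedness of the subgraph on `H`. -/
def ConnOn (G : SimpleGraph V) (H : Set V) : Prop :=
  ∀ S : Set V, S ⊆ H → S.Nonempty → (∃ t ∈ H, t ∉ S) → ∃ s ∈ S, ∃ t ∈ H, t ∉ S ∧ G.Adj s t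

lemma compl_adj {G : SimpleGraph V} {a b : V} (h : a ≠ b) : Gᶜ.Adj a b ↔ ¬ G.Adj a b := by
  simp [SimpleGraph.compl_adj, h]

/-! ### complement -/

lemma NoBull.compl {G : SimpleGraph V} (hG : NoBull G) : NoBull Gᶜ := by
  intro x y t u v hxy hxt hyt hux huy hut hvy hvx hvt
  -- in `G`: `t u v` triangle?  u~y, u~t, v~x, v~t ; if u≁v in Gᶜ then u~v in G (or u = v)
  have nux : u ≠ x := hux.ne
  have nvy : v ≠ y := hvy.ne
  have nuy : u ≠ y := by
    rintro rfl; exact hut hyt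
  have nut : u ≠ t := by
    rintro rfl; exact huy hyt.symm
  have nvx : v ≠ x := by
    rintro rfl; exact hvt hxt
  have nvt : v ≠ t := by
    rintro rfl; exact hvx hxt.symm
  have nuv : u ≠ v := by
    rintro rfl; exact hvx hux
  by_contra hcon
  rw [compl_adj nuv] at hcon
  push Not at hcon
  have e1 : G.Adj u y := by
    by_contra h; exact huy ((compl_adj nuy).2 h)
  have e2 : G.Adj u t := by
    by_contra h; exact hut ((compl_adj nut).2 h)
  have e3 : G.Adj v x := by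
    by_contra h; exact hvx ((compl_adj nvx).2 h)
  have e4 : G.Adj v t := by
    by_contra h; exact hvt ((compl_adj nvt).2 h)
  have f1 : ¬ G.Adj x y := (compl_adj hxy.ne).1 hxy
  have f2 : ¬ G.Adj x t := (compl_adj hxt.ne).1 hxt
  have f3 : ¬ G.Adj y t := (compl_adj hyt.ne).1 hyt
  have f4 : ¬ G.Adj u x := (compl_adj nux).1 hux
  have f5 : ¬ G.Adj v y := (compl_adj nvy).1 hvy
  -- triangle u v t ; pendants y - u, x - v
  have := hG (x := u) (y := v) (t := t) (u := y) (v := x) hcon e2 e4 e1.symm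
    (fun h => f5 h.symm) f3 e3.symm (fun h => f4 h.symm) f2
  exact f1 this.symm

lemma IsMod.compl {G : SimpleGraph V} {H S : Set V} (h : IsMod G H S) : IsMod Gᶜ H S := by
  intro v hv hvS
  rcases h v hv hvS with h1 | h1
  · right
    intro s hs hadj
    exact (compl_adj hadj.ne).1 hadj (h1 s hs)
  · left
    intro s hs
    exact (compl_adj (fun e : v = s => hvS (by rw [e]; exact hs))).2 (h1 s hs)

lemma isMod_compl_iff {G : SimpleGraph V} {H S : Set V} : IsMod Gᶜ H S ↔ IsMod G H S := by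
  constructor
  · intro h
    have := h.compl
    rwa [compl_compl] at this
  · exact fun h => h.compl

lemma PrimeOn.compl {G : SimpleGraph V} {H : Set V} (h : PrimeOn G H) : PrimeOn Gᶜ H :=
  fun S hS hn hm => h S hS hn (isMod_compl_iff.1 hm)

lemma cen_compl_iff {G : SimpleGraph V} {H : Set V} {z : V} : Cen Gᶜ H z ↔ Anti G H z := by
  constructor
  · rintro ⟨h1, h2⟩
    exact ⟨h1, fun h hh => (compl_adj (h2 h hh).ne).1 (h2 h hh)⟩
  · rintro ⟨h1, h2⟩
    exact ⟨h1, fun h hh => (compl_adj (fun e : z = h => h1 (by rw [e]; exact hh))).2 (h2 h hh)⟩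

lemma anti_compl_iff {G : SimpleGraph V} {H : Set V} {z : V} : Anti Gᶜ H z ↔ Cen G H z := by
  rw [← cen_compl_iff, compl_compl]

lemma mix_compl_iff {G : SimpleGraph V} {H : Set V} {x : V} : Mix Gᶜ H x ↔ Mix G H x := by
  have key : ∀ G : SimpleGraph V, Mix G H x → Mix Gᶜ H x := by
    rintro G ⟨h1, ⟨h, hh, h2⟩, ⟨k, hk, h3⟩⟩
    refine ⟨h1, ⟨k, hk, (compl_adj (fun e : x = k => h1 (by rw [e]; exact hk))).2 h3⟩,
      ⟨h, hh, fun h4 => ?_⟩⟩
    exact (compl_adj h4.ne).1 h4 h2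
  constructor
  · intro h
    have := key _ h
    rwa [compl_compl] at this
  · exact key G

/-! ### (alpha), (beta), (i), (ii) -/

/-- (alpha) -/
lemma alpha {G : SimpleGraph V} (hG : NoBull G) {z x h1 h2 h3 : V} (z1 : G.Adj z h1)
    (z2 : G.Adj z h2) (z3 : G.Adj z h3) (xz : ¬ G.Adj x z) (h12 : G.Adj h1 h2)
    (x1 : G.Adj x h1) (x2 : ¬ G.Adj x h2) (x3 : ¬ G.Adj x h3) (h32 : ¬ G.Adj h3 h2) :
    G.Adj h3 h1 := by
  by_contra h31
  exact x3 (hG (x := h1) (y := z) (t := h2) (u := x) (v := h3) z1.symm h12 z2 x1 xz x2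
    z3.symm h31 h32)

/-- (beta) -/
lemma beta {G : SimpleGraph V} (hG : NoBull G) {a x h1 h2 h3 : V} (a1 : ¬ G.Adj a h1)
    (a2 : ¬ G.Adj a h2) (a3 : ¬ G.Adj a h3) (xa : G.Adj x a) (h12 : G.Adj h1 h2)
    (x1 : G.Adj x h1) (x2 : G.Adj x h2) (x3 : ¬ G.Adj x h3) (h31 : G.Adj h3 h1) :
    G.Adj h3 h2 := by
  by_contra h32
  exact a3 (hG (x := x) (y := h1) (t := h2) (u := a) (v := h3) x1 x2 h12 xa.symm a1 a2
    h31 (fun h => x3 h.symm) h32)

/-- A set `T` of pairwise non-resolved vertices: if every vertex of `H` outside `T` does not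
distinguish adjacent vertices of `T` then either `T` is stable or `T` contains `H`. -/
lemma stable_or_all {G : SimpleGraph V} {H T : Set V} (hH : PrimeOn G H) (hT : T ⊆ H)
    (h : ∀ v ∈ H, v ∉ T → ∀ c ∈ T, ∀ d ∈ T, G.Adj c d → G.Adj v c → G.Adj v d) :
    (∀ c ∈ T, ∀ d ∈ T, ¬ G.Adj c d) ∨ T = H := by
  by_contra hcon
  push Not at hcon
  obtain ⟨⟨c0, hc0, d0, hd0, hcd⟩, hne⟩ := hcon
  let R : V → V → Prop := fun c d => c ∈ T ∧ d ∈ T ∧ G.Adj c d
  let C : Set V := {d | Relation.ReflTransGen R c0 d}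
  have hCT : C ⊆ T := by
    intro d hd
    change Relation.ReflTransGen R c0 d at hd
    induction hd with
    | refl => exact hc0
    | tail _ h2 _ => exact h2.2.1
  have hc0C : c0 ∈ C := Relation.ReflTransGen.refl
  have hd0C : d0 ∈ C := Relation.ReflTransGen.single ⟨hc0, hd0, hcd⟩
  have hmod : IsMod G H C := by
    intro v hv hvC
    by_cases hvT : v ∈ T
    · right
      intro s hs hvs
      apply hvC
      exact Relation.ReflTransGen.tail hs ⟨hCT hs, hvT, hvs.symm⟩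
    · have key : ∀ s ∈ C, (G.Adj v c0 ↔ G.Adj v s) := by
        intro s hs
        change Relation.ReflTransGen R c0 s at hs
        induction hs with
        | refl => exact Iff.rfl
        | tail _ h2 ih =>
          rw [ih]
          exact ⟨h v hv hvT _ h2.1 _ h2.2.1 h2.2.2, h v hv hvT _ h2.2.1 _ h2.1 h2.2.2.symm⟩
      by_cases h0 : G.Adj v c0
      · left
        intro s hs
        exact (key s hs).1 h0
      · right
        intro s hs hs2
        exact h0 ((key s hs).2 hs2)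
  have hCH := hH C (hCT.trans hT) ⟨c0, hc0C, d0, hd0C, hcd.ne⟩ hmod
  exact hne (Subset.antisymm hT (hCH ▸ hCT))

/-- complementary form -/
lemma clique_or_all {G : SimpleGraph V} {H T : Set V} (hH : PrimeOn G H) (hT : T ⊆ H)
    (h : ∀ v ∈ H, v ∉ T → ∀ c ∈ T, ∀ d ∈ T, c ≠ d → ¬ G.Adj c d → ¬ G.Adj v c →
      ¬ G.Adj v d) :
    (∀ c ∈ T, ∀ d ∈ T, c ≠ d → G.Adj c d) ∨ T = H := by
  have := stable_or_all (G := Gᶜ) hH.compl hT (by
    intro v hv hvT c hc d hd hcd hvc
    have n1 : v ≠ d := fun e => hvT (e ▸ hd)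
    rw [compl_adj n1]
    exact h v hv hvT c hc d hd hcd.ne ((compl_adj hcd.ne).1 hcd) ((compl_adj hvc.ne).1 hvc))
  rcases this with h1 | h1
  · left
    intro c hc d hd hcd
    by_contra h2
    exact h1 c hc d hd ((compl_adj hcd).2 h2)
  · right; exact h1

/-- (beta) for prime `H`: an outside vertex adjacent to an anticentre is complete to `H` or its
neighbourhood in `H` is stable. -/
lemma beta_prime {G : SimpleGraph V} (hG : NoBull G) {H : Set V} (hH : PrimeOn G H) {a x : V}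
    (ha : Anti G H a) (xa : G.Adj x a) :
    (∀ h ∈ H, G.Adj x h) ∨ (∀ c ∈ H, ∀ d ∈ H, G.Adj x c → G.Adj x d → ¬ G.Adj c d) := by
  rcases stable_or_all (T := {h | h ∈ H ∧ G.Adj x h}) hH (fun h hh => hh.1) (by
    intro v hv hvT c hc d hd hcd hvc
    have hxv : ¬ G.Adj x v := fun h => hvT ⟨hv, h⟩
    exact beta hG (ha.2 c hc.1) (ha.2 d hd.1) (ha.2 v hv) xa hcd hc.2 hd.2 hxv hvc) with h1 | h1
  · right
    intro c hc d hd h2 h3
    exact h1 c ⟨hc, h2⟩ d ⟨hd, h3⟩
  · left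
    intro h hh
    rw [← h1] at hh
    exact hh.2

/-- (alpha) for prime `H`: an outside vertex not adjacent to a centre is anticomplete to `H` or
its non-neighbourhood in `H` is a clique. -/
lemma alpha_prime {G : SimpleGraph V} (hG : NoBull G) {H : Set V} (hH : PrimeOn G H) {z x : V}
    (hz : Cen G H z) (xz : ¬ G.Adj x z) :
    (∀ h ∈ H, ¬ G.Adj x h) ∨
      (∀ c ∈ H, ∀ d ∈ H, ¬ G.Adj x c → ¬ G.Adj x d → c ≠ d → G.Adj c d) := by
  rcases clique_or_all (T := {h | h ∈ H ∧ ¬ G.Adj x h}) hH (fun h hh => hh.1) (by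
    intro v hv hvT c hc d hd hcd hncd hvc hvd
    have hxv : G.Adj x v := by
      by_contra h; exact hvT ⟨hv, h⟩
    -- v ~ d, x ~ v, x≁d, x≁c, c≁d => c ~ v
    have := alpha hG (hz.2 v hv) (hz.2 d hd.1) (hz.2 c hc.1) xz hvd hxv hd.2 hc.2 hncd
    exact hvc this.symm) with h1 | h1
  · right
    intro c hc d hd h2 h3
    exact h1 c ⟨hc, h2⟩ d ⟨hd, h3⟩
  · left
    intro h hh
    rw [← h1] at hh
    exact hh.2

/-- (i) -/
lemma fact_i {G : SimpleGraph V} (hG : NoBull G) {H : Set V} (hH : ConnOn G H) {x z a : V}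
    (hx : Mix G H x) (hz : Cen G H z) (ha : Anti G H a) (hza : G.Adj z a) :
    G.Adj x z ∨ G.Adj x a := by
  by_contra hcon
  push Not at hcon
  obtain ⟨hxz, hxa⟩ := hcon
  obtain ⟨h0, ⟨h, hh, hxh⟩, ⟨k, hk, hxk⟩⟩ := hx
  obtain ⟨s, hs, t, ht, hts, hst⟩ := hH {h | h ∈ H ∧ G.Adj x h} (fun h hh => hh.1)
    ⟨h, hh, hxh⟩ ⟨k, hk, fun h => hxk h.2⟩
  have hxt : ¬ G.Adj x t := fun h => hts ⟨ht, h⟩
  exact hxa (hG (x := s) (y := z) (t := t) (u := x) (v := a) (hz.2 s hs.1).symm hst (hz.2 t ht)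
    hs.2 hxz hxt hza.symm (ha.2 s hs.1) (ha.2 t ht))

/-- (ii) -/
lemma fact_ii {G : SimpleGraph V} (hG : NoBull G) {H : Set V} (hH : ConnOn Gᶜ H) {x z a : V}
    (hx : Mix G H x) (hz : Cen G H z) (ha : Anti G H a) (hza : ¬ G.Adj z a) :
    ¬ G.Adj x z ∨ ¬ G.Adj x a := by
  by_contra hcon
  push Not at hcon
  obtain ⟨hxz, hxa⟩ := hcon
  obtain ⟨h0, ⟨h, hh, hxh⟩, ⟨k, hk, hxk⟩⟩ := hx
  obtain ⟨s, hs, t, ht, hts, hst⟩ := hH {h | h ∈ H ∧ G.Adj x h} (fun h hh => hh.1)
    ⟨h, hh, hxh⟩ ⟨k, hk, fun h => hxk h.2⟩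
  have hxt : ¬ G.Adj x t := fun h => hts ⟨ht, h⟩
  have hst' : ¬ G.Adj s t := (compl_adj hst.ne).1 hst
  -- triangle x z s, pendants a - x, t - z
  exact ha.2 t ht (hG (x := x) (y := z) (t := s) (u := a) (v := t) hxz hs.2 (hz.2 s hs.1)
    hxa.symm (fun h => hza h.symm) (ha.2 s hs.1) (hz.2 t ht).symm (fun h => hxt h.symm)
    (fun h => hst' h.symm))

/-! ### prime subgraphs are connected and co-connected -/

lemma PrimeOn.conn {G : SimpleGraph V} {H : Set V} (hH : PrimeOn G H) {p q r : V} (hp : p ∈ H)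
    (hq : q ∈ H) (hr : r ∈ H) (hpq : p ≠ q) (hpr : p ≠ r) (hqr : q ≠ r) : ConnOn G H := by
  intro S hS hSn ⟨t, ht, htS⟩
  by_contra hcon
  push Not at hcon
  by_cases hS2 : S.Nontrivial
  · have := hH S hS hS2 (by
      intro v hv hvS
      right
      intro s hs hvs
      exact hcon s hs v hv hvS hvs.symm)
    exact htS (this ▸ ht)
  · have hT2 : (H \ S).Nontrivial := by
      rw [Set.not_nontrivial_iff] at hS2
      by_contra hT
      rw [Set.not_nontrivial_iff] at hT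
      -- three elements in the union of two subsingletons
      have key : ∀ y ∈ H, y ∈ S ∨ y ∈ H \ S := fun y hy => by
        by_cases h : y ∈ S
        · exact Or.inl h
        · exact Or.inr ⟨hy, h⟩
      rcases key p hp with h1 | h1 <;> rcases key q hq with h2 | h2 <;>
        rcases key r hr with h3 | h3
      · exact hpq (hS2 h1 h2)
      · exact hpq (hS2 h1 h2)
      · exact hpr (hS2 h1 h3)
      · exact hqr (hT h2 h3)
      · exact hqr (hS2 h2 h3)
      · exact hpr (hT h1 h3)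
      · exact hpq (hT h1 h2)
      · exact hpq (hT h1 h2)
    have := hH (H \ S) sdiff_subset hT2 (by
      intro v hv hvS
      right
      intro s hs hvs
      have hvS' : v ∈ S := by
        by_contra h; exact hvS ⟨hv, h⟩
      exact hcon v hvS' s hs.1 hs.2 hvs)
    obtain ⟨s, hs⟩ := hSn
    have : s ∈ H \ S := by
      rw [this]; exact hS hs
    exact this.2 hs

lemma PrimeOn.coconn {G : SimpleGraph V} {H : Set V} (hH : PrimeOn G H) {p q r : V} (hp : p ∈ H)
    (hq : q ∈ H) (hr : r ∈ H) (hpq : p ≠ q) (hpr : p ≠ r) (hqr : q ≠ r) : ConnOn Gᶜ H :=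
  hH.compl.conn hp hq hr hpq hpr hqr

/-- no twins in a prime subgraph with three or more vertices -/
lemma PrimeOn.no_twins {G : SimpleGraph V} {H : Set V} (hH : PrimeOn G H) {p q r : V}
    (hp : p ∈ H) (hq : q ∈ H) (hr : r ∈ H) (hpq : p ≠ q) (hpr : p ≠ r) (hqr : q ≠ r) :
    ∃ v ∈ H, v ≠ p ∧ v ≠ q ∧ ((G.Adj v p ∧ ¬ G.Adj v q) ∨ (¬ G.Adj v p ∧ G.Adj v q)) := by
  by_contra hcon
  push Not at hcon
  have := hH {p, q} (by
    rintro s (rfl | rfl)
    · exact hp
    · exact hq) ⟨p, by simp, q, by simp, hpq⟩ (by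
      intro v hv hvS
      have h1 : v ≠ p := fun e => hvS (by simp [e])
      have h2 : v ≠ q := fun e => hvS (by simp [e])
      have := hcon v hv h1 h2
      by_cases h3 : G.Adj v p
      · left
        rintro s (rfl | rfl)
        · exact h3
        · exact this.1 h3
      · right
        rintro s (rfl | rfl)
        · exact h3
        · exact this.2 h3)
  have h3 : r ∈ ({p, q} : Set V) := this ▸ hr
  rcases h3 with h3 | h3
  · exact hpr h3.symm
  · exact hqr h3.symm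

/-- no vertex of a prime subgraph (three or more vertices) is complete to the rest -/
lemma PrimeOn.no_dom {G : SimpleGraph V} {H : Set V} (hH : PrimeOn G H) {p q r : V}
    (hp : p ∈ H) (hq : q ∈ H) (hr : r ∈ H) (hpq : p ≠ q) (hpr : p ≠ r) (hqr : q ≠ r) :
    ∃ v ∈ H, v ≠ p ∧ ¬ G.Adj p v := by
  by_contra hcon
  push Not at hcon
  have := hH (H \ {p}) sdiff_subset ⟨q, ⟨hq, fun e => hpq e.symm⟩, r, ⟨hr, fun e => hpr e.symm⟩,
    hqr⟩ (by
      intro v hv hvS
      have h1 : v = p := by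
        by_contra h; exact hvS ⟨hv, h⟩
      subst h1
      left
      intro s hs
      exact hcon s hs.1 hs.2)
  have : p ∈ H \ {p} := by
    rw [this]; exact hp
  exact this.2 rfl

/-- no vertex of a prime subgraph (three or more vertices) is anticomplete to the rest -/
lemma PrimeOn.no_iso {G : SimpleGraph V} {H : Set V} (hH : PrimeOn G H) {p q r : V}
    (hp : p ∈ H) (hq : q ∈ H) (hr : r ∈ H) (hpq : p ≠ q) (hpr : p ≠ r) (hqr : q ≠ r) :
    ∃ v ∈ H, G.Adj p v := by
  obtain ⟨v, hv, h1, h2⟩ := hH.compl.no_dom hp hq hr hpq hpr hqr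
  refine ⟨v, hv, ?_⟩
  by_contra h
  exact h2 ((compl_adj h1.symm).2 h)

end H13.BF
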