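import Pool.Agent.H13.BF.Closure

/-!
# Lemma CA

In a prime bull-free graph no prime induced subgraph with five or more vertices has both a
centre and an anticentre.
-/

namespace H13.BF

open Set

variable {V : Type*}

lemma exists_third {I : Set V} (_hfin : I.Finite) (h : 3 ≤ I.ncard) (p q : V) :
    ∃ r ∈ I, r ≠ p ∧ r ≠ q := by
  by_contra hcon
  push Not at hcon
  have hsub : I ⊆ {p, q} := by
    intro r hr
    by_cases h1 : r = p
    · simp [h1]
    · simp [hcon r hr h1]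
  have h1 := Set.ncard_le_ncard hsub (by simp)
  have h2 : ({p, q} : Set V).ncard ≤ 2 := Set.ncard_insert_le _ _ |>.trans (by simp)
  omega

/-- three-vertex forms of the primeness facts, using the cardinality -/
lemma PrimeOn.conn' {G : SimpleGraph V} {I : Set V} (hI : PrimeOn G I) (hfin : I.Finite)
    (h : 3 ≤ I.ncard) : ConnOn G I := by
  obtain ⟨p, hp, _, _⟩ := exists_third (I := I) hfin h (Classical.choice (by
    by_contra hne
    have : I = ∅ := by
      ext x
      exact ⟨fun _ => hne ⟨x⟩, fun h => h.elim⟩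
    simp [this] at h)) (Classical.choice (by
    by_contra hne
    have : I = ∅ := by
      ext x
      exact ⟨fun _ => hne ⟨x⟩, fun h => h.elim⟩
    simp [this] at h))
  obtain ⟨q, hq, hqp, _⟩ := exists_third hfin h p p
  obtain ⟨r, hr, hrp, hrq⟩ := exists_third hfin h p q
  exact hI.conn hp hq hr hqp.symm hrp.symm hrq.symm

lemma PrimeOn.coconn' {G : SimpleGraph V} {I : Set V} (hI : PrimeOn G I) (hfin : I.Finite)
    (h : 3 ≤ I.ncard) : ConnOn Gᶜ I := hI.compl.conn' hfin h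

lemma PrimeOn.no_twins' {G : SimpleGraph V} {I : Set V} (hI : PrimeOn G I) (hfin : I.Finite)
    (h : 3 ≤ I.ncard) {p q : V} (hp : p ∈ I) (hq : q ∈ I) (hpq : p ≠ q) :
    ∃ v ∈ I, v ≠ p ∧ v ≠ q ∧ ((G.Adj v p ∧ ¬ G.Adj v q) ∨ (¬ G.Adj v p ∧ G.Adj v q)) := by
  obtain ⟨r, hr, hrp, hrq⟩ := exists_third hfin h p q
  exact hI.no_twins hp hq hr hpq hrp.symm hrq.symm

lemma PrimeOn.no_dom' {G : SimpleGraph V} {I : Set V} (hI : PrimeOn G I) (hfin : I.Finite)
    (h : 3 ≤ I.ncard) {p : V} (hp : p ∈ I) : ∃ v ∈ I, v ≠ p ∧ ¬ G.Adj p v := by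
  obtain ⟨q, hq, hqp, _⟩ := exists_third hfin h p p
  obtain ⟨r, hr, hrp, hrq⟩ := exists_third hfin h p q
  exact hI.no_dom hp hq hr hqp.symm hrp.symm hrq.symm

lemma PrimeOn.no_iso' {G : SimpleGraph V} {I : Set V} (hI : PrimeOn G I) (hfin : I.Finite)
    (h : 3 ≤ I.ncard) {p : V} (hp : p ∈ I) : ∃ v ∈ I, G.Adj p v := by
  obtain ⟨q, hq, hqp, _⟩ := exists_third hfin h p p
  obtain ⟨r, hr, hrp, hrq⟩ := exists_third hfin h p q
  exact hI.no_iso hp hq hr hqp.symm hrp.symm hrq.symm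

/-- the vertices of the clique part not adjacent to `n` -/
def JJ (G : SimpleGraph V) (I N : Set V) (n : V) : Set V := {f | f ∈ I ∧ f ∉ N ∧ ¬ G.Adj n f}

/-- A bull-free prime split graph has at most four vertices. -/
lemma split_small {G : SimpleGraph V} (hG : NoBull G) {I : Set V} (hfin : I.Finite)
    (hI : PrimeOn G I) {N : Set V} (hN : N ⊆ I) (hst : ∀ c ∈ N, ∀ d ∈ N, ¬ G.Adj c d)
    (hcl : ∀ c ∈ I, c ∉ N → ∀ d ∈ I, d ∉ N → c ≠ d → G.Adj c d) : I.ncard < 5 := by
  by_contra h5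
  have h3 : 3 ≤ I.ncard := by omega
  have hIne : I.Nonempty := by
    rw [← Set.ncard_pos hfin]; omega
  have hNne : N.Nonempty := by
    obtain ⟨v, hv⟩ := hIne
    by_cases hvN : v ∈ N
    · exact ⟨v, hvN⟩
    · obtain ⟨w, hw, hwv, hvw⟩ := hI.no_dom' hfin h3 hv
      refine ⟨w, ?_⟩
      by_contra hwN
      exact hvw (hcl v hv hvN w hw hwN hwv.symm)
  obtain ⟨n, hnN, hmax⟩ := Set.Finite.exists_maximalFor (JJ G I N) N (hfin.subset hN) hNne
  -- equal neighbourhoods of two elements of `N` are impossible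
  have htwin : ∀ p ∈ N, ∀ q ∈ N, p ≠ q → JJ G I N p ⊆ JJ G I N q → JJ G I N q ⊆ JJ G I N p →
      False := by
    intro p hp q hq hpq h1 h2
    obtain ⟨v, hv, hvp, hvq, h | h⟩ := hI.no_twins' hfin h3 (hN hp) (hN hq) hpq
    · have hvN : v ∉ N := fun hvN => hst v hvN p hp h.1
      exact (h2 (show v ∈ JJ G I N q from ⟨hv, hvN, fun h' => h.2 h'.symm⟩)).2.2 h.1.symm
    · have hvN : v ∉ N := fun hvN => hst v hvN q hq h.2
      exact (h1 (show v ∈ JJ G I N p from ⟨hv, hvN, fun h' => h.1 h'.symm⟩)).2.2 h.2.symm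
  -- properties of a vertex `n1` with `J n1 ⊄ J n`
  have hpair : ∀ n1 ∈ N, ∀ e, e ∈ JJ G I N n1 → e ∉ JJ G I N n →
      (∃ f ∈ JJ G I N n, f ∉ JJ G I N n1) := by
    intro n1 hn1 e he1 he2
    by_contra hcon
    push Not at hcon
    exact he2 (hmax hn1 (fun f hf => hcon f hf) he1)
  have hdisj : ∀ n1 ∈ N, ∀ e, e ∈ JJ G I N n1 → e ∉ JJ G I N n →
      ∀ g, g ∈ JJ G I N n → g ∉ JJ G I N n1 := by
    intro n1 hn1 e he1 he2 g hg hg1
    obtain ⟨f, hf, hf1⟩ := hpair n1 hn1 e he1 he2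
    have hne : G.Adj n e := by
      by_contra h; exact he2 ⟨he1.1, he1.2.1, h⟩
    have hn1f : G.Adj n1 f := by
      by_contra h; exact hf1 ⟨hf.1, hf.2.1, h⟩
    have hef : e ≠ f := by rintro rfl; exact hf1 he1
    have heg : e ≠ g := by rintro rfl; exact he2 hg
    have hfg : f ≠ g := by rintro rfl; exact hf1 hg1
    exact hst n hnN n1 hn1 (hG (x := e) (y := f) (t := g) (u := n) (v := n1)
      (hcl e he1.1 he1.2.1 f hf.1 hf.2.1 hef) (hcl e he1.1 he1.2.1 g hg.1 hg.2.1 heg)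
      (hcl f hf.1 hf.2.1 g hg.1 hg.2.1 hfg) hne hf.2.2 hg.2.2 hn1f he1.2.2 hg1.2.2)
  have hthird : ∀ n1 ∈ N, ∀ e, e ∈ JJ G I N n1 → e ∉ JJ G I N n → ∀ n2 ∈ N,
      JJ G I N n ⊆ JJ G I N n2 ∨ JJ G I N n1 ⊆ JJ G I N n2 := by
    intro n1 hn1 e he1 he2 n2 hn2
    by_contra hcon
    rw [not_or, Set.not_subset, Set.not_subset] at hcon
    obtain ⟨⟨f0, hf0, hf02⟩, ⟨e0, he0, he02⟩⟩ := hcon
    have h1 : G.Adj n2 f0 := by
      by_contra h; exact hf02 ⟨hf0.1, hf0.2.1, h⟩
    have h2 : G.Adj n2 e0 := by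
      by_contra h; exact he02 ⟨he0.1, he0.2.1, h⟩
    have hf01 : f0 ∉ JJ G I N n1 := hdisj n1 hn1 e he1 he2 f0 hf0
    have he0n : e0 ∉ JJ G I N n := fun h => hdisj n1 hn1 e he1 he2 e0 h he0
    have h3' : G.Adj n1 f0 := by
      by_contra h; exact hf01 ⟨hf0.1, hf0.2.1, h⟩
    have h4 : G.Adj n e0 := by
      by_contra h; exact he0n ⟨he0.1, he0.2.1, h⟩
    have hef : e0 ≠ f0 := by rintro rfl; exact hf01 he0
    -- triangle e0 f0 n2, pendants n - e0, n1 - f0
    exact hst n hnN n1 hn1 (hG (x := e0) (y := f0) (t := n2) (u := n) (v := n1)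
      (hcl e0 he0.1 he0.2.1 f0 hf0.1 hf0.2.1 hef) h2.symm h1.symm h4 hf0.2.2 (hst n hnN n2 hn2)
      h3' he0.2.2 (hst n1 hn1 n2 hn2))
  -- e, n'
  obtain ⟨e, he, hne⟩ := hI.no_iso' hfin h3 (hN hnN)
  have heN : e ∉ N := fun h => hst n hnN e h hne
  obtain ⟨n', hn', hn'e, hen'⟩ := hI.no_dom' hfin h3 he
  have hn'N : n' ∈ N := by
    by_contra h
    exact hen' (hcl e he heN n' hn' h hn'e.symm)
  have hnn' : n ≠ n' := by
    rintro rfl; exact hen' hne.symm
  have he1 : e ∈ JJ G I N n' := ⟨he, heN, fun h => hen' h.symm⟩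
  have he2 : e ∉ JJ G I N n := fun h => h.2.2 hne
  obtain ⟨f, hf, hf1⟩ := hpair n' hn'N e he1 he2
  have hn'f : G.Adj n' f := by
    by_contra h; exact hf1 ⟨hf.1, hf.2.1, h⟩
  -- N = {n, n'}
  have hN2 : ∀ m ∈ N, m = n ∨ m = n' := by
    intro m hm
    by_contra hcon
    push Not at hcon
    rcases hthird n' hn'N e he1 he2 m hm with h | h
    · exact htwin n hnN m hm hcon.1.symm h (hmax hm h)
    · -- e ∈ J m
      have hem : e ∈ JJ G I N m := h he1
      rcases hthird m hm e hem he2 n' hn'N with h' | h'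
      · exact hf1 (h' hf)
      · exact htwin n' hn'N m hm hcon.2.symm h h'
  -- the clique part is {e, f}
  have hclass : ∀ v ∈ I, v ∉ N → v = f ∨ v = e := by
    intro v hv hvN
    obtain ⟨w, hw, hwv, hvw⟩ := hI.no_dom' hfin h3 hv
    have hwN : w ∈ N := by
      by_contra h
      exact hvw (hcl v hv hvN w hw h hwv.symm)
    rcases hN2 w hwN with rfl | rfl
    · left
      by_contra hvf
      have hvJ : v ∈ JJ G I N w := ⟨hv, hvN, fun h => hvw h.symm⟩
      have hvJ' := hdisj n' hn'N e he1 he2 v hvJ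
      have hn'v : G.Adj n' v := by
        by_contra h; exact hvJ' ⟨hv, hvN, h⟩
      obtain ⟨u, hu, huv, huf, h | h⟩ := hI.no_twins' hfin h3 hv hf.1 hvf
      · have huN : u ∈ N := by
          by_contra h'; exact h.2 (hcl u hu h' f hf.1 hf.2.1 huf)
        rcases hN2 u huN with rfl | rfl
        · exact hvw h.1.symm
        · exact h.2 hn'f
      · have huN : u ∈ N := by
          by_contra h'; exact h.1 (hcl u hu h' v hv hvN huv)
        rcases hN2 u huN with rfl | rfl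
        · exact hf.2.2 h.2
        · exact h.1 hn'v
    · right
      by_contra hve
      have hvJ : v ∈ JJ G I N w := ⟨hv, hvN, fun h => hvw h.symm⟩
      have hvJ' : v ∉ JJ G I N n := fun h => hdisj w hn'N e he1 he2 v h hvJ
      have hnv : G.Adj n v := by
        by_contra h; exact hvJ' ⟨hv, hvN, h⟩
      obtain ⟨u, hu, huv, hue, h | h⟩ := hI.no_twins' hfin h3 hv he hve
      · have huN : u ∈ N := by
          by_contra h'; exact h.2 (hcl u hu h' e he heN hue)
        rcases hN2 u huN with rfl | rfl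
        · exact h.2 hne
        · exact hvw h.1.symm
      · have huN : u ∈ N := by
          by_contra h'; exact h.1 (hcl u hu h' v hv hvN huv)
        rcases hN2 u huN with rfl | rfl
        · exact h.1 hnv
        · exact hen' h.2.symm
  have hsub : I ⊆ {n, n', f, e} := by
    intro v hv
    by_cases hvN : v ∈ N
    · rcases hN2 v hvN with rfl | rfl <;> simp
    · rcases hclass v hv hvN with rfl | rfl <;> simp
  have h1 := Set.ncard_le_ncard hsub (by simp)
  have h2 : ({n, n', f, e} : Set V).ncard ≤ 4 := by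
    have a1 := Set.ncard_insert_le n ({n', f, e} : Set V)
    have a2 := Set.ncard_insert_le n' ({f, e} : Set V)
    have a3 := Set.ncard_insert_le f ({e} : Set V)
    have a4 := Set.ncard_singleton e
    omega
  omega

/-- **Lemma CA.** -/
theorem lemma_CA {G : SimpleGraph V} (hG : NoBull G) (hP : PrimeOn G univ) {I : Set V}
    (hfin : I.Finite) (hI : PrimeOn G I) (h5 : 5 ≤ I.ncard) {z a : V} (hz : Cen G I z)
    (ha : Anti G I a) : False := by
  have h3 : 3 ≤ I.ncard := by omega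
  have hnt : I.Nontrivial := by
    have : Finite I := hfin.to_subtype
    rw [← Set.one_lt_ncard_iff_nontrivial]; omega
  refine closure_lemma hG hP (hI.conn' hfin h3) (hI.coconn' hfin h3) hnt hz ha ?_
  intro x z a hx hz ha hxz hxa
  rcases alpha_prime hG hI hz hxz with h1 | h1
  · obtain ⟨h, hh, h2⟩ := hx.2.1
    exact h1 h hh h2
  · rcases beta_prime hG hI ha hxa with h2 | h2
    · obtain ⟨h, hh, h3⟩ := hx.2.2
      exact h3 (h2 h hh)
    · have := split_small hG hfin hI (N := {h | h ∈ I ∧ G.Adj x h}) (fun h hh => hh.1)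
        (fun c hc d hd => h2 c hc.1 d hd.1 hc.2 hd.2)
        (fun c hc hcN d hd hdN hcd => h1 c hc d hd (fun h => hcN ⟨hc, h⟩)
          (fun h => hdN ⟨hd, h⟩) hcd)
      omega

end H13.BF
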