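import Pool.Agent.H13.BF.CA

/-!
# Lemmas CD and PR

CD: an induced five-cycle has no centre `v` (if some prime induced subgraph with five or more
vertices is anticomplete to `v`).  PR: a prism has no anticentre.
-/

namespace H13.BF

open Set

variable {V : Type*}

/-- `d1 d2 d3 d4 d5` is an induced five-cycle (distinctness is automatic) -/
structure IsC5 (G : SimpleGraph V) (d1 d2 d3 d4 d5 : V) : Prop where
  e12 : G.Adj d1 d2
  e23 : G.Adj d2 d3
  e34 : G.Adj d3 d4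
  e45 : G.Adj d4 d5
  e51 : G.Adj d5 d1
  n13 : ¬ G.Adj d1 d3
  n14 : ¬ G.Adj d1 d4
  n24 : ¬ G.Adj d2 d4
  n25 : ¬ G.Adj d2 d5
  n35 : ¬ G.Adj d3 d5

lemma IsC5.rot {G : SimpleGraph V} {d1 d2 d3 d4 d5 : V} (h : IsC5 G d1 d2 d3 d4 d5) :
    IsC5 G d2 d3 d4 d5 d1 where
  e12 := h.e23
  e23 := h.e34
  e34 := h.e45
  e45 := h.e51
  e51 := h.e12
  n13 := h.n24
  n14 := h.n25
  n24 := h.n35
  n25 := fun e => h.n13 e.symm
  n35 := fun e => h.n14 e.symm

lemma IsC5.ne13 {G : SimpleGraph V} {d1 d2 d3 d4 d5 : V} (h : IsC5 G d1 d2 d3 d4 d5) :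
    d1 ≠ d3 := by
  rintro rfl; exact h.n14 h.e34

lemma IsMod.mem {G : SimpleGraph V} {H S : Set V} (h : IsMod G H S) {c a b : V} (hc : c ∈ H)
    (ha : a ∈ S) (hb : b ∈ S) (hca : G.Adj c a) (hcb : ¬ G.Adj c b) : c ∈ S := by
  by_contra hcS
  rcases h c hc hcS with h1 | h1
  · exact hcb (h1 b hb)
  · exact h1 a ha hca

lemma IsC5.all12 {G : SimpleGraph V} {d1 d2 d3 d4 d5 : V} (h : IsC5 G d1 d2 d3 d4 d5)
    {H S : Set V} (hS : IsMod G H S) (h3 : d3 ∈ H) (h4 : d4 ∈ H)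
    (h5 : d5 ∈ H) (m1 : d1 ∈ S) (m2 : d2 ∈ S) : d3 ∈ S ∧ d4 ∈ S ∧ d5 ∈ S := by
  have m3 : d3 ∈ S := hS.mem h3 m2 m1 h.e23.symm (fun e => h.n13 e.symm)
  have m5 : d5 ∈ S := hS.mem h5 m1 m2 h.e51 (fun e => h.n25 e.symm)
  have m4 : d4 ∈ S := hS.mem h4 m3 m1 h.e34.symm (fun e => h.n14 e.symm)
  exact ⟨m3, m4, m5⟩

lemma IsC5.all13 {G : SimpleGraph V} {d1 d2 d3 d4 d5 : V} (h : IsC5 G d1 d2 d3 d4 d5)
    {H S : Set V} (hS : IsMod G H S) (h2 : d2 ∈ H) (h4 : d4 ∈ H)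
    (h5 : d5 ∈ H) (m1 : d1 ∈ S) (m3 : d3 ∈ S) : d2 ∈ S ∧ d4 ∈ S ∧ d5 ∈ S := by
  have m4 : d4 ∈ S := hS.mem h4 m3 m1 h.e34.symm (fun e => h.n14 e.symm)
  have m5 : d5 ∈ S := hS.mem h5 m1 m3 h.e51 (fun e => h.n35 e.symm)
  have m2 : d2 ∈ S := hS.mem h2 m1 m4 h.e12.symm h.n24
  exact ⟨m2, m4, m5⟩

lemma IsC5.prime {G : SimpleGraph V} {d1 d2 d3 d4 d5 : V} (h : IsC5 G d1 d2 d3 d4 d5) :
    PrimeOn G {d1, d2, d3, d4, d5} := by
  intro S hS hn hm
  apply Subset.antisymm hS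
  have g1 : d1 ∈ ({d1, d2, d3, d4, d5} : Set V) := by simp
  have g2 : d2 ∈ ({d1, d2, d3, d4, d5} : Set V) := by simp
  have g3 : d3 ∈ ({d1, d2, d3, d4, d5} : Set V) := by simp
  have g4 : d4 ∈ ({d1, d2, d3, d4, d5} : Set V) := by simp
  have g5 : d5 ∈ ({d1, d2, d3, d4, d5} : Set V) := by simp
  have hall : d1 ∈ S ∧ d2 ∈ S ∧ d3 ∈ S ∧ d4 ∈ S ∧ d5 ∈ S := by
    have k12 : d1 ∈ S → d2 ∈ S → d1 ∈ S ∧ d2 ∈ S ∧ d3 ∈ S ∧ d4 ∈ S ∧ d5 ∈ S := fun m1 m2 =>
      have t := h.all12 hm g3 g4 g5 m1 m2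
      ⟨m1, m2, t.1, t.2.1, t.2.2⟩
    have k23 : d2 ∈ S → d3 ∈ S → d1 ∈ S ∧ d2 ∈ S ∧ d3 ∈ S ∧ d4 ∈ S ∧ d5 ∈ S := fun m1 m2 =>
      have t := h.rot.all12 hm g4 g5 g1 m1 m2
      ⟨t.2.2, m1, m2, t.1, t.2.1⟩
    have k34 : d3 ∈ S → d4 ∈ S → d1 ∈ S ∧ d2 ∈ S ∧ d3 ∈ S ∧ d4 ∈ S ∧ d5 ∈ S := fun m1 m2 =>
      have t := h.rot.rot.all12 hm g5 g1 g2 m1 m2
      ⟨t.2.1, t.2.2, m1, m2, t.1⟩
    have k45 : d4 ∈ S → d5 ∈ S → d1 ∈ S ∧ d2 ∈ S ∧ d3 ∈ S ∧ d4 ∈ S ∧ d5 ∈ S := fun m1 m2 =>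
      have t := h.rot.rot.rot.all12 hm g1 g2 g3 m1 m2
      ⟨t.1, t.2.1, t.2.2, m1, m2⟩
    have k51 : d5 ∈ S → d1 ∈ S → d1 ∈ S ∧ d2 ∈ S ∧ d3 ∈ S ∧ d4 ∈ S ∧ d5 ∈ S := fun m1 m2 =>
      have t := h.rot.rot.rot.rot.all12 hm g2 g3 g4 m1 m2
      ⟨m2, t.1, t.2.1, t.2.2, m1⟩
    have k13 : d1 ∈ S → d3 ∈ S → d1 ∈ S ∧ d2 ∈ S ∧ d3 ∈ S ∧ d4 ∈ S ∧ d5 ∈ S := fun m1 m2 =>
      have t := h.all13 hm g2 g4 g5 m1 m2
      ⟨m1, t.1, m2, t.2.1, t.2.2⟩
    have k24 : d2 ∈ S → d4 ∈ S → d1 ∈ S ∧ d2 ∈ S ∧ d3 ∈ S ∧ d4 ∈ S ∧ d5 ∈ S := fun m1 m2 =>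
      have t := h.rot.all13 hm g3 g5 g1 m1 m2
      ⟨t.2.2, m1, t.1, m2, t.2.1⟩
    have k35 : d3 ∈ S → d5 ∈ S → d1 ∈ S ∧ d2 ∈ S ∧ d3 ∈ S ∧ d4 ∈ S ∧ d5 ∈ S := fun m1 m2 =>
      have t := h.rot.rot.all13 hm g4 g1 g2 m1 m2
      ⟨t.2.1, t.2.2, m1, t.1, m2⟩
    have k41 : d4 ∈ S → d1 ∈ S → d1 ∈ S ∧ d2 ∈ S ∧ d3 ∈ S ∧ d4 ∈ S ∧ d5 ∈ S := fun m1 m2 =>
      have t := h.rot.rot.rot.all13 hm g5 g2 g3 m1 m2
      ⟨m2, t.2.1, t.2.2, m1, t.1⟩
    have k52 : d5 ∈ S → d2 ∈ S → d1 ∈ S ∧ d2 ∈ S ∧ d3 ∈ S ∧ d4 ∈ S ∧ d5 ∈ S := fun m1 m2 =>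
      have t := h.rot.rot.rot.rot.all13 hm g1 g3 g4 m1 m2
      ⟨t.1, m2, t.2.1, t.2.2, m1⟩
    obtain ⟨p, hp, q, hq, hpq⟩ := hn
    have hp' := hS hp
    have hq' := hS hq
    simp only [mem_insert_iff, mem_singleton_iff] at hp' hq'
    rcases hp' with e1 | e1 | e1 | e1 | e1 <;> rcases hq' with e2 | e2 | e2 | e2 | e2 <;>
      rw [e1] at hp <;> rw [e2] at hq <;> first
      | exact absurd (e1.trans e2.symm) hpq
      | exact k12 hp hq
      | exact k12 hq hp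
      | exact k23 hp hq
      | exact k23 hq hp
      | exact k34 hp hq
      | exact k34 hq hp
      | exact k45 hp hq
      | exact k45 hq hp
      | exact k51 hp hq
      | exact k51 hq hp
      | exact k13 hp hq
      | exact k13 hq hp
      | exact k24 hp hq
      | exact k24 hq hp
      | exact k35 hp hq
      | exact k35 hq hp
      | exact k41 hp hq
      | exact k41 hq hp
      | exact k52 hp hq
      | exact k52 hq hp
  rintro x (rfl | rfl | rfl | rfl | rfl)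
  · exact hall.1
  · exact hall.2.1
  · exact hall.2.2.1
  · exact hall.2.2.2.1
  · exact hall.2.2.2.2

lemma IsC5.ncard {G : SimpleGraph V} {d1 d2 d3 d4 d5 : V} (h : IsC5 G d1 d2 d3 d4 d5) :
    ({d1, d2, d3, d4, d5} : Set V).ncard = 5 := by
  have n13 := h.ne13
  have n24 := h.rot.ne13
  have n35 := h.rot.rot.ne13
  have n41 := h.rot.rot.rot.ne13
  have n52 := h.rot.rot.rot.rot.ne13
  have n12 := h.e12.ne
  have n23 := h.e23.ne
  have n34 := h.e34.ne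
  have n45 := h.e45.ne
  have n51 := h.e51.ne
  rw [Set.ncard_insert_of_notMem, Set.ncard_insert_of_notMem, Set.ncard_insert_of_notMem,
    Set.ncard_insert_of_notMem, Set.ncard_singleton]
  · simpa using n45
  · simp [n34, n35]
  · simp [n23, n24, n52.symm]
  · simp [n12, n13, n41.symm, n51.symm]

/-- **Lemma CD.** -/
theorem lemma_CD {G : SimpleGraph V} (hG : NoBull G) (hP : PrimeOn G univ) {d1 d2 d3 d4 d5 : V}
    (hD : IsC5 G d1 d2 d3 d4 d5) {v : V} (hv : Cen G {d1, d2, d3, d4, d5} v) {I : Set V}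
    (hfin : I.Finite) (hI : PrimeOn G I) (h5 : 5 ≤ I.ncard) (hvI : Anti G I v) : False := by
  have h3 : 3 ≤ I.ncard := by omega
  -- an edge of I
  have hIne : I.Nonempty := by
    rw [← Set.ncard_pos hfin]; omega
  obtain ⟨c, hc⟩ := hIne
  obtain ⟨c', hc', hcc⟩ := hI.no_iso' hfin h3 hc
  -- each vertex of I
  have key : ∀ c ∈ I, ∀ x ∈ ({d1, d2, d3, d4, d5} : Set V), ∀ y ∈ ({d1, d2, d3, d4, d5} : Set V),
      x ≠ y → ¬ G.Adj x y → G.Adj c x ∨ G.Adj c y := by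
    intro c hc x hx y hy hxy hnxy
    have hcv : ¬ G.Adj c v := fun h => hvI.2 c hc h.symm
    have hcD : c ∉ ({d1, d2, d3, d4, d5} : Set V) := fun h => hcv (hv.2 c h).symm
    rcases alpha_prime hG hD.prime hv hcv with h1 | h1
    · exact (lemma_CA hG hP (by simp) hD.prime (le_of_eq hD.ncard.symm) hv
        (⟨hcD, h1⟩ : Anti G _ c)).elim
    · by_contra hcon
      push Not at hcon
      exact hnxy (h1 x hx y hy hcon.1 hcon.2 hxy)
  have key2 : ∀ x ∈ ({d1, d2, d3, d4, d5} : Set V), ¬ (G.Adj c x ∧ G.Adj c' x) := by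
    rintro x hx ⟨h1, h2⟩
    have hxv : G.Adj x v := (hv.2 x hx).symm
    have hxI : x ∉ I := fun h => hvI.2 x h hxv.symm
    rcases beta_prime hG hI hvI hxv with h | h
    · exact lemma_CA hG hP hfin hI h5 (⟨hxI, h⟩ : Cen G I x) hvI
    · exact h c hc c' hc' h1.symm h2.symm hcc
  have n13 := hD.ne13
  have n24 := hD.rot.ne13
  have n35 := hD.rot.rot.ne13
  have n41 := hD.rot.rot.rot.ne13
  have n52 := hD.rot.rot.rot.rot.ne13
  have a13 := key c hc d1 (by simp) d3 (by simp) n13 hD.n13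
  have a24 := key c hc d2 (by simp) d4 (by simp) n24 hD.n24
  have a35 := key c hc d3 (by simp) d5 (by simp) n35 hD.n35
  have a14 := key c hc d1 (by simp) d4 (by simp) n41.symm hD.n14
  have a25 := key c hc d2 (by simp) d5 (by simp) n52.symm hD.n25
  have b13 := key c' hc' d1 (by simp) d3 (by simp) n13 hD.n13
  have b24 := key c' hc' d2 (by simp) d4 (by simp) n24 hD.n24
  have b35 := key c' hc' d3 (by simp) d5 (by simp) n35 hD.n35
  have b14 := key c' hc' d1 (by simp) d4 (by simp) n41.symm hD.n14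
  have b25 := key c' hc' d2 (by simp) d5 (by simp) n52.symm hD.n25
  have c1 := key2 d1 (by simp)
  have c2 := key2 d2 (by simp)
  have c3 := key2 d3 (by simp)
  have c4 := key2 d4 (by simp)
  have c5 := key2 d5 (by simp)
  clear key key2
  by_cases q1 : G.Adj c d1
  · have r1 : ¬ G.Adj c' d1 := fun h => c1 ⟨q1, h⟩
    have r3 : G.Adj c' d3 := b13.resolve_left r1
    have r4 : G.Adj c' d4 := b14.resolve_left r1
    have q3 : ¬ G.Adj c d3 := fun h => c3 ⟨h, r3⟩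
    have q4 : ¬ G.Adj c d4 := fun h => c4 ⟨h, r4⟩
    have q5 : G.Adj c d5 := a35.resolve_left q3
    have q2 : G.Adj c d2 := a24.resolve_right q4
    rcases b25 with h | h
    · exact c2 ⟨q2, h⟩
    · exact c5 ⟨q5, h⟩
  · have q3 : G.Adj c d3 := a13.resolve_left q1
    have q4 : G.Adj c d4 := a14.resolve_left q1
    have r3 : ¬ G.Adj c' d3 := fun h => c3 ⟨q3, h⟩
    have r4 : ¬ G.Adj c' d4 := fun h => c4 ⟨q4, h⟩
    have r5 : G.Adj c' d5 := b35.resolve_left r3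
    have r2 : G.Adj c' d2 := b24.resolve_right r4
    rcases a25 with h | h
    · exact c2 ⟨h, r2⟩
    · exact c5 ⟨h, r5⟩

/-! ### prisms -/

/-- `p`, `q` are the two triangles of an induced prism -/
structure IsPrism (G : SimpleGraph V) (p q : Fin 3 → V) : Prop where
  pp : ∀ i j, i ≠ j → G.Adj (p i) (p j)
  qq : ∀ i j, i ≠ j → G.Adj (q i) (q j)
  pq : ∀ i, G.Adj (p i) (q i)
  npq : ∀ i j, i ≠ j → ¬ G.Adj (p i) (q j)

lemma IsPrism.swap {G : SimpleGraph V} {p q : Fin 3 → V} (h : IsPrism G p q) :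
    IsPrism G q p where
  pp := h.qq
  qq := h.pp
  pq := fun i => (h.pq i).symm
  npq := fun i j hij e => h.npq j i hij.symm e.symm

lemma third3 : ∀ i j : Fin 3, ∃ k, k ≠ i ∧ k ≠ j := by decide

lemma three3 : ∀ i j k l : Fin 3, i ≠ j → k ≠ i → k ≠ j → l = i ∨ l = j ∨ l = k := by decide

lemma IsPrism.inj {G : SimpleGraph V} {p q : Fin 3 → V} (h : IsPrism G p q) :
    Function.Injective (Sum.elim p q) := by
  have hp : Function.Injective p := by
    intro i j hij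
    by_contra hne
    exact (h.pp i j hne).ne hij
  have hq : Function.Injective q := by
    intro i j hij
    by_contra hne
    exact (h.qq i j hne).ne hij
  have hpq : ∀ i j, p i ≠ q j := by
    intro i j hij
    by_cases hne : i = j
    · subst hne
      exact (h.pq i).ne hij
    · have h1 := h.pq j
      -- q j = p i, p j ~ q j, choose k ≠ i, j : p i ~ p k but q j ≁ p k
      obtain ⟨k, hki, hkj⟩ := third3 i j
      have h2 := h.pp i k hki.symm
      rw [hij] at h2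
      exact h.npq k j hkj h2.symm
  exact Function.Injective.sumElim hp hq hpq

lemma IsPrism.allp {G : SimpleGraph V} {p q : Fin 3 → V} (h : IsPrism G p q) {H S : Set V}
    (hS : IsMod G H S) (hp : ∀ i, p i ∈ H) (hq : ∀ i, q i ∈ H) {i j : Fin 3} (hij : i ≠ j)
    (m1 : p i ∈ S) (m2 : p j ∈ S) : (∀ l, p l ∈ S) ∧ (∀ l, q l ∈ S) := by
  obtain ⟨k, hki, hkj⟩ := third3 i j
  have mqi : q i ∈ S := hS.mem (hq i) m1 m2 (h.pq i).symm (fun e => h.npq j i hij.symm e.symm)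
  have mqj : q j ∈ S := hS.mem (hq j) m2 m1 (h.pq j).symm (fun e => h.npq i j hij e.symm)
  have mpk : p k ∈ S := hS.mem (hp k) m1 mqi (h.pp k i hki) (h.npq k i hki)
  have mqk : q k ∈ S := hS.mem (hq k) mqi m1 (h.qq k i hki)
    (fun e => h.npq i k hki.symm e.symm)
  constructor
  · intro l
    rcases three3 i j k l hij hki hkj with rfl | rfl | rfl
    · exact m1
    · exact m2
    · exact mpk
  · intro l
    rcases three3 i j k l hij hki hkj with rfl | rfl | rfl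
    · exact mqi
    · exact mqj
    · exact mqk

lemma IsPrism.allpq {G : SimpleGraph V} {p q : Fin 3 → V} (h : IsPrism G p q) {H S : Set V}
    (hS : IsMod G H S) (hp : ∀ i, p i ∈ H) (hq : ∀ i, q i ∈ H) {i j : Fin 3}
    (m1 : p i ∈ S) (m2 : q j ∈ S) : (∀ l, p l ∈ S) ∧ (∀ l, q l ∈ S) := by
  obtain ⟨k, hki, hkj⟩ := third3 i j
  have mpk : p k ∈ S := hS.mem (hp k) m1 m2 (h.pp k i hki) (h.npq k j hkj)
  exact h.allp hS hp hq hki mpk m1

lemma IsPrism.prime {G : SimpleGraph V} {p q : Fin 3 → V} (h : IsPrism G p q) :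
    PrimeOn G (range (Sum.elim p q)) := by
  intro S hS hn hm
  apply Subset.antisymm hS
  have hp : ∀ i, p i ∈ range (Sum.elim p q) := fun i => ⟨Sum.inl i, rfl⟩
  have hq : ∀ i, q i ∈ range (Sum.elim p q) := fun i => ⟨Sum.inr i, rfl⟩
  have hall : (∀ l, p l ∈ S) ∧ (∀ l, q l ∈ S) := by
    obtain ⟨x, hx, y, hy, hxy⟩ := hn
    obtain ⟨i | i, rfl⟩ := hS hx <;> obtain ⟨j | j, rfl⟩ := hS hy
    · exact h.allp hm hp hq (fun e => hxy (by rw [e])) hx hy
    · exact h.allpq hm hp hq hx hy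
    · exact h.allpq hm hp hq hy hx
    · have := h.swap.allp hm hq hp (fun e => hxy (by rw [e])) hx hy
      exact ⟨this.2, this.1⟩
  rintro x ⟨i | i, rfl⟩
  · exact hall.1 i
  · exact hall.2 i

lemma IsPrism.ncard {G : SimpleGraph V} {p q : Fin 3 → V} (h : IsPrism G p q) :
    (range (Sum.elim p q)).ncard = 6 := by
  rw [← Set.image_univ, Set.ncard_image_of_injective _ h.inj, Set.ncard_univ]
  simp

/-- an outside vertex adjacent to exactly one vertex of the first triangle, say `p i`, and whose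
neighbourhood in the prism is stable: a bull -/
lemma IsPrism.no_stable {G : SimpleGraph V} (hG : NoBull G) {p q : Fin 3 → V}
    (h : IsPrism G p q) {x : V}
    (hst : ∀ c ∈ range (Sum.elim p q), ∀ d ∈ range (Sum.elim p q), G.Adj x c → G.Adj x d →
      ¬ G.Adj c d) {i : Fin 3} (hxi : G.Adj x (p i)) : False := by
  have hp : ∀ i, p i ∈ range (Sum.elim p q) := fun i => ⟨Sum.inl i, rfl⟩
  have hq : ∀ i, q i ∈ range (Sum.elim p q) := fun i => ⟨Sum.inr i, rfl⟩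
  have hxp : ∀ j, j ≠ i → ¬ G.Adj x (p j) := fun j hj hxj =>
    hst (p i) (hp i) (p j) (hp j) hxi hxj (h.pp i j hj.symm)
  -- choose j ≠ i with x ≁ q j
  obtain ⟨j, hji, _⟩ := third3 i i
  obtain ⟨k, hki, hkj⟩ := third3 i j
  have hqq : ¬ (G.Adj x (q j) ∧ G.Adj x (q k)) := fun hh =>
    hst (q j) (hq j) (q k) (hq k) hh.1 hh.2 (h.qq j k hkj.symm)
  have main : ∀ j k : Fin 3, j ≠ i → k ≠ i → k ≠ j → ¬ G.Adj x (q j) → False := by
    intro j k hji hki hkj hxq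
    -- triangle p i, p j, p k; pendants x - p i, q j - p j
    exact hxq (hG (x := p i) (y := p j) (t := p k) (u := x) (v := q j) (h.pp i j hji.symm)
      (h.pp i k hki.symm) (h.pp j k hkj.symm) hxi (hxp j hji) (hxp k hki) (h.pq j).symm
      (fun e => h.npq i j hji.symm e.symm) (fun e => h.npq k j hkj e.symm))
  by_cases h1 : G.Adj x (q j)
  · exact main k j hki hji hkj.symm (fun h2 => hqq ⟨h1, h2⟩)
  · exact main j k hji hki hkj h1

/-- **Lemma PR.** A prism in a prime bull-free graph has no anticentre. -/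
theorem lemma_PR {G : SimpleGraph V} (hG : NoBull G) (hP : PrimeOn G univ) {p q : Fin 3 → V}
    (h : IsPrism G p q) {a : V} (ha : Anti G (range (Sum.elim p q)) a) : False := by
  have hnc : ∀ z, ¬ Cen G (range (Sum.elim p q)) z := fun z hz =>
    lemma_CA hG hP (Set.finite_range _) h.prime (by rw [h.ncard]; omega) hz ha
  let W : Set V := {x | ¬ Anti G (range (Sum.elim p q)) x}
  have hsub : range (Sum.elim p q) ⊆ W := fun x hx hx' => hx'.1 hx
  have hW : W = univ := by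
    apply hP W (subset_univ _)
    · refine ⟨p 0, hsub ⟨Sum.inl 0, rfl⟩, p 1, hsub ⟨Sum.inl 1, rfl⟩, ?_⟩
      exact (h.pp 0 1 (by decide)).ne
    · intro b _ hb
      have hb' : Anti G (range (Sum.elim p q)) b := by
        by_contra hcon; exact hb hcon
      right
      intro x hx hbx
      have hxn : ¬ Anti G (range (Sum.elim p q)) x := hx
      have hxH : x ∉ range (Sum.elim p q) := fun hxH => hb'.2 x hxH hbx
      rcases beta_prime hG h.prime hb' hbx.symm with h1 | h1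
      · exact hnc x ⟨hxH, h1⟩
      · have hex : ∃ y ∈ range (Sum.elim p q), G.Adj x y := by
          by_contra hcon
          push Not at hcon
          exact hxn ⟨hxH, hcon⟩
        obtain ⟨y, ⟨i | i, rfl⟩, hxy⟩ := hex
        · exact h.no_stable hG h1 hxy
        · refine h.swap.no_stable hG (x := x) ?_ hxy
          have hr : range (Sum.elim q p) = range (Sum.elim p q) := by
            ext y
            constructor
            · rintro ⟨i | i, rfl⟩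
              · exact ⟨Sum.inr i, rfl⟩
              · exact ⟨Sum.inl i, rfl⟩
            · rintro ⟨i | i, rfl⟩
              · exact ⟨Sum.inr i, rfl⟩
              · exact ⟨Sum.inl i, rfl⟩
          rw [hr]
          exact h1
  have : a ∈ W := hW ▸ mem_univ a
  exact this ha

end H13.BF
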