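import Pool.Agent.H13.BF.Basic

/-!
# The closure lemma L0

`H` connected and co-connected, with a centre and an anticentre, and no mixed vertex `x` with
`x ≁ z`, `x ~ a` (`z` centre, `a` anticentre).  Then `G` is not prime.
-/

namespace H13.BF

open Set

variable {V : Type*}

/-- cumulative layers -/
def layer (G : SimpleGraph V) (H : Set V) : ℕ → Set V
  | 0 => {x | Mix G H x}
  | n + 1 => layer G H n ∪ {a | Anti G H a ∧ ∃ m ∈ layer G H n, G.Adj a m}

lemma layer_mono_succ (G : SimpleGraph V) (H : Set V) (n : ℕ) :
    layer G H n ⊆ layer G H (n + 1) := fun _ h => Or.inl h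

lemma layer_sub {G : SimpleGraph V} {H : Set V} {n : ℕ} {x : V} (hx : x ∈ layer G H n) :
    Mix G H x ∨ Anti G H x := by
  induction n with
  | zero => exact Or.inl hx
  | succ n ih =>
    rcases hx with hx | hx
    · exact ih hx
    · exact Or.inr hx.1

/-- every vertex of the layers is adjacent to every centre -/
lemma layer_complete {G : SimpleGraph V} (hG : NoBull G) {H : Set V} (hc : ConnOn Gᶜ H)
    (hn : H.Nonempty) (hM : ∀ x z, Mix G H x → Cen G H z → G.Adj x z) {z : V} (hz : Cen G H z) :
    ∀ n, ∀ x ∈ layer G H n, G.Adj x z := by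
  intro n
  induction n using Nat.strong_induction_on with
  | _ n ih =>
    intro x hx
    cases n with
    | zero => exact hM x z hx hz
    | succ n =>
      rcases hx with hx | ⟨hxa, m, hm, hxm⟩
      · exact ih n (Nat.lt_succ_self n) x hx
      · by_contra hcon
        have hmz := ih n (Nat.lt_succ_self n) m hm
        cases n with
        | zero =>
          -- m is mixed : (ii)
          rcases fact_ii hG hc hm hz hxa (fun h => hcon h.symm) with h | h
          · exact h hmz
          · exact h hxm.symm
        | succ k =>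
          by_cases hmk : m ∈ layer G H k
          · -- then x is already in layer (k+1)
            exact hcon (ih (k + 1) (Nat.lt_succ_self _) x (Or.inr ⟨hxa, m, hmk, hxm⟩))
          · rcases hm with hm | ⟨hma, l, hl, hml⟩
            · exact hmk hm
            · by_cases hxl : G.Adj x l
              · exact hcon (ih (k + 1) (Nat.lt_succ_self _) x (Or.inr ⟨hxa, l, hl, hxl⟩))
              · have hlz := ih k (by omega) l hl
                -- a nonneighbour of l in H
                have hex : ∃ h ∈ H, ¬ G.Adj l h := by
                  rcases layer_sub hl with h1 | h1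
                  · exact h1.2.2
                  · obtain ⟨h, hh⟩ := hn
                    exact ⟨h, hh, h1.2 h hh⟩
                obtain ⟨h, hh, hlh⟩ := hex
                -- triangle m z l, pendants x - m, h - z
                exact hxa.2 h hh (hG (x := m) (y := z) (t := l) (u := x) (v := h) hmz hml
                  hlz.symm hxm hcon hxl (hz.2 h hh).symm (fun e => hma.2 h hh e.symm)
                  (fun e => hlh e.symm))

/-- first case of the closure lemma -/
lemma closure_case {G : SimpleGraph V} (hG : NoBull G) (hP : PrimeOn G univ) {H : Set V}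
    (hc : ConnOn Gᶜ H) (hn : H.Nontrivial)
    (hM : ∀ x z, Mix G H x → Cen G H z → G.Adj x z) {z : V} (hz : Cen G H z) : False := by
  let W : Set V := H ∪ ⋃ n, layer G H n
  have hzW : z ∉ W := by
    rintro (h | h)
    · exact hz.1 h
    · obtain ⟨n, hn'⟩ := mem_iUnion.1 h
      rcases layer_sub hn' with h1 | h1
      · obtain ⟨h, hh, hzh⟩ := h1.2.2
        exact hzh (hz.2 h hh)
      · obtain ⟨h, hh⟩ := hn.nonempty
        exact h1.2 h hh (hz.2 h hh)
  have hW : W = univ := by
    apply hP W (subset_univ _)
    · obtain ⟨p, hp, q, hq, hpq⟩ := hn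
      exact ⟨p, Or.inl hp, q, Or.inl hq, hpq⟩
    · intro v _ hvW
      have hvH : v ∉ H := fun h => hvW (Or.inl h)
      have hvL : ∀ n, v ∉ layer G H n := fun n h => hvW (Or.inr (mem_iUnion.2 ⟨n, h⟩))
      have hnm : ¬ Mix G H v := fun h => hvL 0 h
      by_cases hex : ∃ h ∈ H, G.Adj v h
      · -- v is a centre
        have hvz : Cen G H v := by
          refine ⟨hvH, ?_⟩
          by_contra hcon
          push Not at hcon
          exact hnm ⟨hvH, hex, hcon⟩
        left
        rintro s (hs | hs)
        · exact hvz.2 s hs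
        · obtain ⟨n, hs⟩ := mem_iUnion.1 hs
          exact (layer_complete hG hc hn.nonempty hM hvz n s hs).symm
      · push Not at hex
        have hva : Anti G H v := ⟨hvH, hex⟩
        right
        rintro s (hs | hs) hvs
        · exact hex s hs hvs
        · obtain ⟨n, hs⟩ := mem_iUnion.1 hs
          exact hvL (n + 1) (Or.inr ⟨hva, s, hs, hvs⟩)
  rw [hW] at hzW
  exact hzW (mem_univ z)

/-- **Closure lemma L0.** -/
theorem closure_lemma {G : SimpleGraph V} (hG : NoBull G) (hP : PrimeOn G univ) {H : Set V}
    (hc : ConnOn G H) (hcc : ConnOn Gᶜ H) (hn : H.Nontrivial) {z a : V} (hz : Cen G H z)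
    (ha : Anti G H a)
    (hno : ∀ x z a, Mix G H x → Cen G H z → Anti G H a → ¬ G.Adj x z → ¬ G.Adj x a) :
    False := by
  by_cases hM : ∀ x z, Mix G H x → Cen G H z → G.Adj x z
  · exact closure_case hG hP hcc hn hM hz
  · push Not at hM
    obtain ⟨x0, z0, hx0, hz0, hxz⟩ := hM
    have hxa : ∀ a, Anti G H a → ¬ G.Adj x0 a := fun a ha => hno x0 z0 a hx0 hz0 ha hxz
    have hza : ∀ a, Anti G H a → ¬ G.Adj z0 a := by
      intro a ha h
      rcases fact_i hG hc hx0 hz0 ha h with h1 | h1
      · exact hxz h1
      · exact hxa a ha h1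
    have hMA : ∀ x a, Mix G H x → Anti G H a → ¬ G.Adj x a := by
      intro x a hx ha h
      have h1 : G.Adj x z0 := by
        by_contra h2
        exact hno x z0 a hx hz0 ha h2 h
      rcases fact_ii hG hcc hx hz0 ha (hza a ha) with h3 | h3
      · exact h3 h1
      · exact h3 h
    refine closure_case (G := Gᶜ) hG.compl hP.compl (H := H) (by rwa [compl_compl]) hn ?_
      (z := a) (cen_compl_iff.2 ha)
    intro x b hx hb
    rw [mix_compl_iff] at hx
    rw [cen_compl_iff] at hb
    have hne : x ≠ b := by
      rintro rfl
      obtain ⟨h, hh, h1⟩ := hx.2.1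
      exact hb.2 h hh h1
    exact (compl_adj hne).2 (hMA x b hx hb)

end H13.BF
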