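import Pool.Agent.H13.BF.CDPR
import Pool.Agent.H8.BullGem2
import Pool.Agent.H78.BF.Step5

/-!
# Glue: Step 3 gives the context of Step 4 (`BullPD.GCtx`) and the prism hypothesis of Step 5
-/

namespace H13.BF

open Set

variable {V : Type*} {G : SimpleGraph V}

lemma noBull_of (h : BullPD.BullFree G) : NoBull G :=
  fun x y t u v hxy hxt hyt hux huy hut hvy hvx hvt =>
    h x y t u v hxy hxt hyt hux hvy huy hut hvx hvt

lemma primeUniv_of (h : BullPD.PrimeG G) : PrimeOn G univ :=
  fun S _ hn hm => h S hn (fun v hv => hm v (mem_univ v) hv)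

lemma mig_prime [DecidableEq V] {I : Finset V} (h : BullPD.MIG G I) : PrimeOn G (I : Set V) := by
  classical
  intro S hS hn hm
  have h1 : I.filter (fun x => x ∈ S) = I := by
    apply h.prime (Finset.filter_subset _ _)
    · obtain ⟨p, hp, q, hq, hpq⟩ := hn
      have hp' : p ∈ I.filter (fun x => x ∈ S) :=
        Finset.mem_filter.2 ⟨Finset.mem_coe.1 (hS hp), hp⟩
      have hq' : q ∈ I.filter (fun x => x ∈ S) :=
        Finset.mem_filter.2 ⟨Finset.mem_coe.1 (hS hq), hq⟩
      exact Finset.one_lt_card.2 ⟨p, hp', q, hq', hpq⟩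
    · intro w hw hwM
      have hwS : w ∉ S := fun h => hwM (Finset.mem_filter.2 ⟨hw, h⟩)
      rcases hm w (Finset.mem_coe.2 hw) hwS with h2 | h2
      · exact Or.inl fun x hx => h2 x (Finset.mem_filter.1 hx).2
      · exact Or.inr fun x hx => h2 x (Finset.mem_filter.1 hx).2
  apply Subset.antisymm hS
  intro x hx
  have hx' : x ∈ I.filter (fun x => x ∈ S) := by
    rw [h1]; exact Finset.mem_coe.1 hx
  exact (Finset.mem_filter.1 hx').2

lemma conn_of {H : Set V} (h : BullPD.ConnOn G H) : ConnOn G H := by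
  intro S hS hSn ⟨t, ht, htS⟩
  by_contra hcon
  push Not at hcon
  have := h S hS hSn (by
    intro x hx y hy hxy
    by_contra hyS
    exact hcon x hx y hy hyS hxy)
  exact htS (this ▸ ht)

lemma coconn_of {H : Set V} (h : BullPD.CoConnOn G H) : ConnOn Gᶜ H := by
  intro S hS hSn ⟨t, ht, htS⟩
  by_contra hcon
  push Not at hcon
  have := h S hS hSn (by
    intro x hx y hy hne hxy
    by_contra hyS
    exact hcon x hx y hy hyS ((compl_adj hne).2 hxy))
  exact htS (this ▸ ht)

/-- Step 3 gives the context of Step 4. -/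
theorem gctx_of [DecidableEq V] (hb : BullPD.BullFree G) (hp : BullPD.PrimeG G)
    (himp : ∀ v : V, ∃ I : Finset V, BullPD.MIG G I ∧ v ∉ I ∧ ∀ x ∈ I, ¬ G.Adj v x) :
    BullPD.GCtx G := by
  have hb' := noBull_of hb
  have hp' := primeUniv_of hp
  refine ⟨hb, hp, ?_, ?_, ?_⟩
  · intro v
    obtain ⟨I, hI, hvI, hv⟩ := himp v
    refine ⟨(I : Set V), ?_, mig_prime hI, hI.not_bipOn, ?_⟩
    · intro x hx
      refine ⟨?_, hv x (Finset.mem_coe.1 hx)⟩
      rintro rfl
      exact hvI (Finset.mem_coe.1 hx)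
    · intro z hz
      have hzI : z ∉ (I : Set V) := fun h => (hz z h).ne rfl
      exact lemma_CA hb' hp' I.finite_toSet (mig_prime hI)
        (by rw [Set.ncard_coe_finset]; exact hI.five_le_card) (⟨hzI, hz⟩ : Cen G _ z)
        (⟨fun h => hvI (Finset.mem_coe.1 h), fun x hx => hv x (Finset.mem_coe.1 hx)⟩ :
          Anti G _ v)
  · intro p1 p2 p3 p4 x z hP x1 x2 x3 x4 hz hzx
    obtain ⟨h12, h23, h34, h13, h24, h14⟩ := hP
    obtain ⟨z1, z2, z3, z4⟩ := hz
    have hC : IsC5 G x p1 p2 p3 p4 := ⟨x1, h12, h23, h34, x4.symm, x2, x3, h13, h14, h24⟩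
    have hcen : Cen G {x, p1, p2, p3, p4} z := by
      have hall : ∀ y ∈ ({x, p1, p2, p3, p4} : Set V), G.Adj z y := by
        rintro y (rfl | rfl | rfl | rfl | rfl) <;> assumption
      exact ⟨fun h => (hall z h).ne rfl, hall⟩
    obtain ⟨I, hI, hvI, hv⟩ := himp z
    exact lemma_CD hb' hp' hC hcen I.finite_toSet (mig_prime hI)
      (by rw [Set.ncard_coe_finset]; exact hI.five_le_card)
      ⟨fun h => hvI (Finset.mem_coe.1 h), fun x hx => hv x (Finset.mem_coe.1 hx)⟩
  · intro H hn hc hcc ⟨z, hz⟩ ⟨a, ha, ha'⟩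
    by_contra hcon
    push Not at hcon
    have hzH : z ∉ H := fun h => (hz z h).ne rfl
    refine closure_lemma hb' hp' (conn_of hc) (coconn_of hcc) hn (z := z) (a := a)
      ⟨hzH, hz⟩ ⟨ha, ha'⟩ ?_
    intro x z a hx hz ha hxz
    refine hcon x z a hx.1 ?_ ?_ hz.2 ha.1 ha.2 hxz
    · intro h
      obtain ⟨y, hy, hxy⟩ := hx.2.2
      exact hxy (h y hy)
    · intro h
      obtain ⟨y, hy, hxy⟩ := hx.2.1
      exact h y hy hxy

/-- Step 3 gives the prism hypothesis of Step 5. -/
theorem hPR_of (hb : BullPD.BullFree G) (hp : BullPD.PrimeG G) :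
    ∀ x1 x2 x3 y1 y2 y3 a : V, BullPD.IsPrism G x1 x2 x3 y1 y2 y3 → ¬ G.Adj a x1 →
      ¬ G.Adj a x2 → ¬ G.Adj a x3 → ¬ G.Adj a y1 → ¬ G.Adj a y2 → ¬ G.Adj a y3 → False := by
  intro x1 x2 x3 y1 y2 y3 a hP a1 a2 a3 b1 b2 b3
  obtain ⟨e12, e13, e23, f12, f13, f23, g1, g2, g3, n12, n13, n21, n23, n31, n32⟩ := hP
  have hprism : IsPrism G ![x1, x2, x3] ![y1, y2, y3] := by
    constructor
    · intro i j hij
      fin_cases i <;> fin_cases j <;> first
        | exact absurd rfl hij
        | assumption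
        | exact SimpleGraph.Adj.symm (by assumption)
    · intro i j hij
      fin_cases i <;> fin_cases j <;> first
        | exact absurd rfl hij
        | assumption
        | exact SimpleGraph.Adj.symm (by assumption)
    · intro i
      fin_cases i <;> assumption
    · intro i j hij
      fin_cases i <;> fin_cases j <;> first
        | exact absurd rfl hij
        | assumption
  have ha : ∀ y ∈ range (Sum.elim ![x1, x2, x3] ![y1, y2, y3]), ¬ G.Adj a y := by
    rintro y ⟨i | i, rfl⟩ <;> fin_cases i <;> assumption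
  refine lemma_PR (noBull_of hb) (primeUniv_of hp) hprism (a := a) ⟨?_, ha⟩
  rintro ⟨i | i, hi⟩
  · fin_cases i
    · exact a2 (by rw [← hi]; exact e12)
    · exact a3 (by rw [← hi]; exact e23)
    · exact a1 (by rw [← hi]; exact e13.symm)
  · fin_cases i
    · exact b2 (by rw [← hi]; exact f12)
    · exact b3 (by rw [← hi]; exact f23)
    · exact b1 (by rw [← hi]; exact f13.symm)

end H13.BF
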